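import Pool.Agent.R963.Star.One

/-!
# MP_41ff67_pr, Q1: which star-shaped sets are limit shapes of weighted Eden growth?

For `d = 1` every admissible `K` is of the form `𝔹`.  For every `d ≥ 2` the answer is no: there is
an admissible (even convex) `K`, a double cone with sharp tips, which is not of the form `𝔹` for
any `α < 1` and any `α`-weight function.  Both statements hold for every norm `μ` on `ℝ^d`, in
particular for the norm whose unit ball is the limit shape of the unweighted Eden model.
-/

namespace Pool.Agent.Results.MP_41ff67_pr.StarShapedCriterion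

open Pool.Agent.R963.Star

/-- Let `μ` be any norm on `ℝ^d`.  If `d = 1` then every star body `K` (compact, Lipschitz
boundary, neighbourhood of `0`, boundary met exactly once by every ray) is the shape `𝔹` of some
`α`-weight function with `α < 1`.  If `d ≥ 2` there is a convex star body `K` which is not the
shape `𝔹` of any `α`-weight function with `α < 1`. -/
theorem result (d : ℕ) (μ : Seminorm ℝ (E d)) (hμ : ∀ x, μ x = 0 → x = 0) :
    (d = 1 → ∀ K : Set (E d), IsStarBody K →
      ∃ α : ℝ, α < 1 ∧ ∃ f₀ : E d → ℝ, IsAngular f₀ ∧ K = shape μ α f₀) ∧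
    (2 ≤ d → ∃ K : Set (E d), IsStarBody K ∧ Convex ℝ K ∧
      ∀ α : ℝ, α < 1 → ∀ f₀ : E d → ℝ, IsAngular f₀ → K ≠ shape μ α f₀) := by
  refine ⟨?_, fun hd => not_shape hd μ hμ⟩
  rintro rfl K hK
  exact shape_dim_one μ hμ K hK

end Pool.Agent.Results.MP_41ff67_pr.StarShapedCriterion
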